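import Pool.Agent.Helper55.CF.Goals

/-!
# Extrapolation of the functional equation to `s = -1`
-/

noncomputable section
namespace Pool.Agent.Helper6.CF

open CF55 MvPolynomial

/-- the polynomial ring -/
abbrev A5 := MvPolynomial (Fin 5) ℂ

/-- sequences of class `S` -/
def Cls (p : A5) (G : ℕ → A5) : Prop :=
  ∃ (N : ℕ) (E : Polynomial A5), ∀ a : ℕ, p ^ N * G a = p ^ a * E.eval (a : A5)

theorem cls_pow (p : A5) : Cls p (fun a => p ^ a) := ⟨0, 1, fun a => by simp⟩

theorem cls_mul {p : A5} {G : ℕ → A5} (h : Cls p G) (q : A5) : Cls p (fun a => q * G a) := by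
  obtain ⟨N, E, hE⟩ := h
  refine ⟨N, Polynomial.C q * E, fun a => ?_⟩
  rw [Polynomial.eval_mul, Polynomial.eval_C]
  linear_combination q * hE a

theorem cls_smul {p : A5} {G : ℕ → A5} (h : Cls p G) (c : ℂ) : Cls p (fun a => c • G a) := by
  have := cls_mul h (MvPolynomial.C c)
  simpa only [MvPolynomial.smul_eq_C_mul] using this

theorem cls_add {p : A5} {G H : ℕ → A5} (h : Cls p G) (k : Cls p H) :
    Cls p (fun a => G a + H a) := by
  obtain ⟨N, E, hE⟩ := h
  obtain ⟨N', E', hE'⟩ := k
  refine ⟨N + N', Polynomial.C (p ^ N') * E + Polynomial.C (p ^ N) * E', fun a => ?_⟩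
  rw [Polynomial.eval_add, Polynomial.eval_mul, Polynomial.eval_mul, Polynomial.eval_C,
    Polynomial.eval_C, pow_add]
  linear_combination p ^ N' * hE a + p ^ N * hE' a

theorem d_eval (i : Fin 5) (E : Polynomial A5) :
    ∃ E' : Polynomial A5, ∀ a : ℕ, pderiv i (E.eval (a : A5)) = E'.eval (a : A5) := by
  induction E using Polynomial.induction_on' with
  | add f g hf hg =>
    obtain ⟨f', hf'⟩ := hf
    obtain ⟨g', hg'⟩ := hg
    exact ⟨f' + g', fun a => by simp [hf', hg']⟩
  | monomial n c =>
    refine ⟨Polynomial.monomial n (pderiv i c), fun a => ?_⟩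
    rw [Polynomial.eval_monomial, Polynomial.eval_monomial]
    have h1 : pderiv i ((a : A5) ^ n) = 0 := by
      rw [← Nat.cast_pow]
      exact Derivation.map_natCast _ _
    rw [Derivation.leibniz, h1]
    simp [mul_comm]

theorem p_d_pow (i : Fin 5) (p : A5) (N : ℕ) :
    p * pderiv i (p ^ N) = (N : A5) * p ^ N * pderiv i p := by
  cases N with
  | zero => simp
  | succ n =>
    rw [Derivation.leibniz_pow]
    simp only [Nat.add_sub_cancel, smul_eq_mul, nsmul_eq_mul]
    push_cast
    ring

theorem cls_d {p : A5} {G : ℕ → A5} (h : Cls p G) (i : Fin 5) :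
    Cls p (fun a => pderiv i (G a)) := by
  obtain ⟨N, E, hE⟩ := h
  obtain ⟨E', hE'⟩ := d_eval i E
  refine ⟨N + 1, Polynomial.C (pderiv i p) * Polynomial.X * E + Polynomial.C p * E' -
    Polynomial.C ((N : A5) * pderiv i p) * E, fun a => ?_⟩
  have h1 := congrArg (fun x => pderiv i x) (hE a)
  simp only [Derivation.leibniz, smul_eq_mul, hE'] at h1
  have h2 := p_d_pow i p N
  have h3 := p_d_pow i p a
  simp only [Polynomial.eval_add, Polynomial.eval_sub, Polynomial.eval_mul, Polynomial.eval_C,
    Polynomial.eval_X]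
  rw [pow_succ]
  linear_combination p * h1 - G a * h2 + (E.eval (a : A5)) * h3 - (N : A5) * pderiv i p * hE a

theorem cls_weyl {p : A5} {P : Module.End ℂ A5} (hP : P ∈ weyl 5) :
    ∀ {G : ℕ → A5}, Cls p G → Cls p (fun a => P (G a)) := by
  induction hP using Algebra.adjoin_induction with
  | mem x hx =>
    intro G hG
    rcases hx with ⟨i, rfl⟩ | ⟨i, rfl⟩
    · exact cls_mul hG (X i)
    · exact cls_d hG i
  | algebraMap r =>
    intro G hG
    exact cls_smul hG r
  | add x y _ _ hx hy =>
    intro G hG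
    exact cls_add (hx hG) (hy hG)
  | mul x y _ _ hx hy =>
    intro G hG
    exact hx (hy hG)

theorem stmtEXTRA : G_EXTRA := by
  intro p u b m P hP hp hb h
  have hcl : ∀ j, Cls p (fun a => P j (p ^ a)) := fun j => cls_weyl (hP j) (cls_pow p)
  choose N E hE using hcl
  set M := ∑ j ∈ Finset.range m, N j with hM
  have hNM : ∀ j ∈ Finset.range m, N j ≤ M := fun j hj =>
    Finset.single_le_sum (f := N) (fun _ _ => Nat.zero_le _) hj
  have hE' : ∀ j ∈ Finset.range m, ∀ a : ℕ,
      p ^ M * P j (p ^ a) = p ^ a * (p ^ (M - N j) * (E j).eval (a : A5)) := by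
    intro j hj a
    have h1 := hE j a
    have h2 : p ^ M = p ^ (M - N j) * p ^ (N j) := by
      rw [← pow_add, Nat.sub_add_cancel (hNM j hj)]
    rw [h2]
    linear_combination p ^ (M - N j) * h1
  have hsm : ∀ (c : ℂ) (x : A5), c • x = MvPolynomial.C c * x := fun c x =>
    MvPolynomial.smul_eq_C_mul x c
  have key : ∀ k : ℕ, MvPolynomial.C (b.eval (k : ℂ)) * u * p ^ M =
      p * ∑ j ∈ Finset.range m,
        (k : A5) ^ j * (p ^ (M - N j) * (E j).eval ((k : A5) + 1)) := by
    intro k
    have hpk : p ^ k ≠ 0 := pow_ne_zero _ hp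
    apply mul_right_cancel₀ hpk
    have h1 := h k
    calc MvPolynomial.C (b.eval (k : ℂ)) * u * p ^ M * p ^ k
        = p ^ M * (MvPolynomial.C (b.eval (k : ℂ)) * u * p ^ k) := by ring
      _ = p ^ M * ∑ j ∈ Finset.range m, (k : ℂ) ^ j • P j (p ^ (k + 1)) := by rw [h1]
      _ = ∑ j ∈ Finset.range m, p * ((k : A5) ^ j *
            (p ^ (M - N j) * (E j).eval ((k : A5) + 1))) * p ^ k := by
          rw [Finset.mul_sum]
          refine Finset.sum_congr rfl fun j hj => ?_
          have h2 := hE' j hj (k + 1)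
          push_cast at h2
          have h3 : ((MvPolynomial.C ((k : ℂ) ^ j) : A5)) = (k : A5) ^ j := by
            rw [map_pow, map_natCast]
          rw [hsm, h3]
          linear_combination (k : A5) ^ j * h2
      _ = _ := by
          rw [Finset.mul_sum, Finset.sum_mul]
  set L : Polynomial A5 := b.map MvPolynomial.C * Polynomial.C (u * p ^ M) with hL
  set Rr : Polynomial A5 := Polynomial.C p * ∑ j ∈ Finset.range m,
    Polynomial.X ^ j * (Polynomial.C (p ^ (M - N j)) * (E j).comp (Polynomial.X + 1)) with hR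
  have hLR : L = Rr := by
    apply Polynomial.eq_of_infinite_eval_eq
    refine Set.Infinite.mono (s := Set.range (Nat.cast : ℕ → A5)) ?_
      (Set.infinite_range_of_injective Nat.cast_injective)
    rintro _ ⟨k, rfl⟩
    simp only [Set.mem_setOf_eq, hL, hR, Polynomial.eval_mul, Polynomial.eval_C,
      Polynomial.eval_finset_sum, Polynomial.eval_pow, Polynomial.eval_X, Polynomial.eval_comp,
      Polynomial.eval_add, Polynomial.eval_one, Polynomial.eval_natCast_map]
    rw [← key k]
    ring
  have h0 := congrArg (fun q => Polynomial.eval (-1 : A5) q) hLR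
  have hb0 : Polynomial.eval (-1 : A5) (b.map MvPolynomial.C) = 0 := by
    have h1 : (-1 : A5) = MvPolynomial.C (-1 : ℂ) := by simp
    rw [h1, Polynomial.eval_map, Polynomial.eval₂_hom, hb, map_zero]
  simp only [hL, hR, Polynomial.eval_mul, Polynomial.eval_C, hb0, zero_mul,
    Polynomial.eval_finset_sum, Polynomial.eval_pow, Polynomial.eval_X, Polynomial.eval_comp,
    Polynomial.eval_add, Polynomial.eval_one, neg_add_cancel] at h0
  have h4 : p ^ M * (∑ j ∈ Finset.range m, (-1 : ℂ) ^ j • P j 1) =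
      ∑ j ∈ Finset.range m, (-1 : A5) ^ j * (p ^ (M - N j) * (E j).eval 0) := by
    rw [Finset.mul_sum]
    refine Finset.sum_congr rfl fun j hj => ?_
    have h2 := hE' j hj 0
    rw [pow_zero, Nat.cast_zero] at h2
    have h3 : ((MvPolynomial.C ((-1 : ℂ) ^ j) : A5)) = (-1 : A5) ^ j := by
      rw [map_pow, map_neg, map_one]
    rw [hsm, h3]
    linear_combination (-1 : A5) ^ j * h2
  rw [← h4] at h0
  have h5 := (mul_eq_zero.mp h0.symm).resolve_left hp
  exact (mul_eq_zero.mp h5).resolve_left (pow_ne_zero _ hp)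

end Pool.Agent.Helper6.CF
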