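import Pool.Agent.Helper55.CF.Goals

/-!
# Local integrability of `1 / |z₀ z₁ - κ² z₂²|`
-/

open MeasureTheory Metric Set
open scoped ENNReal

noncomputable section
namespace Pool.Agent.Helper6.CF

open CF55

theorem inv_int (r : ℝ) : IntegrableOn (fun w : ℂ => ‖w‖⁻¹) (ball 0 r) := by
  refine integrableOn_ball_of_norm_le_rpow (C := 1) (α := 1) ?_ ?_ ?_ ?_
  · rw [Complex.finrank_real_complex]; norm_num
  · rw [Complex.finrank_real_complex]; norm_num
  · refine Filter.Eventually.of_forall fun x => ?_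
    rw [norm_inv, norm_norm, one_mul, Real.rpow_neg_one]
  · exact (measurable_norm.inv).aestronglyMeasurable

theorem c0_lt : ∫⁻ w in ball (0 : ℂ) 1, ENNReal.ofReal ‖w‖⁻¹ < ⊤ :=
  (inv_int 1).lintegral_lt_top

theorem meas_inv : Measurable (fun w : ℂ => ENNReal.ofReal ‖w‖⁻¹) :=
  (measurable_norm.inv).ennreal_ofReal

/-- the constant -/
def Cr (r : ℝ) : ℝ≥0∞ :=
  (∫⁻ w in ball (0 : ℂ) 1, ENNReal.ofReal ‖w‖⁻¹) + volume (ball (0 : ℂ) r)

theorem Cr_lt (r : ℝ) : Cr r < ⊤ := ENNReal.add_lt_top.mpr ⟨c0_lt, measure_ball_lt_top⟩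

theorem ball_bound (r : ℝ) (a : ℂ) :
    ∫⁻ z in ball (0 : ℂ) r, ENNReal.ofReal ‖z - a‖⁻¹ ≤ Cr r := by
  have h1 : ∀ z : ℂ, ENNReal.ofReal ‖z - a‖⁻¹ ≤
      (ball (0 : ℂ) 1).indicator (fun w => ENNReal.ofReal ‖w‖⁻¹) (z - a) + 1 := by
    intro z
    by_cases h : z - a ∈ ball (0 : ℂ) 1
    · rw [indicator_of_mem h]; exact le_self_add
    · rw [indicator_of_notMem h, zero_add, ← ENNReal.ofReal_one]
      apply ENNReal.ofReal_le_ofReal
      rw [mem_ball_zero_iff, not_lt] at h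
      exact inv_le_one_of_one_le₀ h
  have hm : Measurable ((ball (0 : ℂ) 1).indicator (fun w => ENNReal.ofReal ‖w‖⁻¹)) :=
    meas_inv.indicator measurableSet_ball
  calc ∫⁻ z in ball (0 : ℂ) r, ENNReal.ofReal ‖z - a‖⁻¹
      ≤ ∫⁻ z in ball (0 : ℂ) r,
          ((ball (0 : ℂ) 1).indicator (fun w => ENNReal.ofReal ‖w‖⁻¹) (z - a) + 1) :=
        lintegral_mono h1
    _ = (∫⁻ z in ball (0 : ℂ) r,
          (ball (0 : ℂ) 1).indicator (fun w => ENNReal.ofReal ‖w‖⁻¹) (z - a)) +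
          volume (ball (0 : ℂ) r) := by
        rw [lintegral_add_right _ measurable_const, lintegral_one, Measure.restrict_apply_univ]
    _ ≤ (∫⁻ z, (ball (0 : ℂ) 1).indicator (fun w => ENNReal.ofReal ‖w‖⁻¹) (z - a)) +
          volume (ball (0 : ℂ) r) := by
        gcongr
        exact Measure.restrict_le_self
    _ = Cr r := by
        rw [lintegral_sub_right_eq_self
          ((ball (0 : ℂ) 1).indicator (fun w => ENNReal.ofReal ‖w‖⁻¹)) a,
          lintegral_indicator measurableSet_ball, Cr]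

theorem inner_bound (r : ℝ) (z₁ b : ℂ) (h : z₁ ≠ 0) :
    ∫⁻ z in ball (0 : ℂ) r, ENNReal.ofReal ‖z * z₁ - b‖⁻¹ ≤ ENNReal.ofReal ‖z₁‖⁻¹ * Cr r := by
  have h1 : ∀ z : ℂ, ENNReal.ofReal ‖z * z₁ - b‖⁻¹ =
      ENNReal.ofReal ‖z₁‖⁻¹ * ENNReal.ofReal ‖z - b / z₁‖⁻¹ := by
    intro z
    rw [← ENNReal.ofReal_mul (by positivity), ← mul_inv, ← norm_mul]
    congr 3
    field_simp
  simp only [h1]
  rw [lintegral_const_mul' _ _ ENNReal.ofReal_ne_top]
  gcongr
  exact ball_bound r _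

/-- the dominating function -/
def GG (κ : ℂ) (r : ℝ) (q : ℂ × (ℂ × ℂ)) : ℝ≥0∞ :=
  (ball (0 : ℂ) r ×ˢ (ball (0 : ℂ) r ×ˢ ball (0 : ℂ) r)).indicator
    (fun q : ℂ × (ℂ × ℂ) => ENNReal.ofReal ‖q.1 * q.2.1 - (κ * q.2.2) ^ 2‖⁻¹) q

theorem meas_D (κ : ℂ) : Measurable
    (fun q : ℂ × (ℂ × ℂ) => ENNReal.ofReal ‖q.1 * q.2.1 - (κ * q.2.2) ^ 2‖⁻¹) := by
  have h : Measurable (fun q : ℂ × (ℂ × ℂ) => q.1 * q.2.1 - (κ * q.2.2) ^ 2) := by fun_prop
  exact meas_inv.comp h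

theorem meas_GG (κ : ℂ) (r : ℝ) : Measurable (GG κ r) :=
  (meas_D κ).indicator (measurableSet_ball.prod (measurableSet_ball.prod measurableSet_ball))

theorem GG_lt (κ : ℂ) (r : ℝ) : ∫⁻ q, GG κ r q < ⊤ := by
  rw [Measure.volume_eq_prod, lintegral_prod_symm' _ (meas_GG κ r)]
  have hae : ∀ᵐ y : ℂ × ℂ, y.1 ≠ 0 := by
    have h0 : ∀ᵐ x : ℂ, x ≠ 0 := by
      rw [ae_iff]
      have : {a : ℂ | ¬ a ≠ 0} = {0} := by ext a; simp
      rw [this]
      exact measure_singleton 0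
    exact Measure.quasiMeasurePreserving_fst.ae h0
  have hb : ∀ᵐ y : ℂ × ℂ, ∫⁻ x, GG κ r (x, y) ≤
      ((ball (0 : ℂ) r).indicator (fun w => ENNReal.ofReal ‖w‖⁻¹ * Cr r) y.1) *
        ((ball (0 : ℂ) r).indicator (fun _ => 1) y.2) := by
    filter_upwards [hae] with y hy
    by_cases h1 : y.1 ∈ ball (0 : ℂ) r
    · by_cases h2 : y.2 ∈ ball (0 : ℂ) r
      · rw [indicator_of_mem h1, indicator_of_mem h2, mul_one]
        have h3 : ∀ x, GG κ r (x, y) = (ball (0 : ℂ) r).indicator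
            (fun x => ENNReal.ofReal ‖x * y.1 - (κ * y.2) ^ 2‖⁻¹) x := by
          intro x
          by_cases h : x ∈ ball (0 : ℂ) r
          · rw [indicator_of_mem h, GG, indicator_of_mem (mk_mem_prod h (mk_mem_prod h1 h2))]
          · rw [indicator_of_notMem h, GG, indicator_of_notMem (fun hh => h hh.1)]
        simp only [h3]
        rw [lintegral_indicator measurableSet_ball]
        exact inner_bound r _ _ hy
      · have h3 : ∀ x, GG κ r (x, y) = 0 := fun x => by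
          rw [GG, indicator_of_notMem (fun hh => h2 hh.2.2)]
        simp [h3]
    · have h3 : ∀ x, GG κ r (x, y) = 0 := fun x => by
        rw [GG, indicator_of_notMem (fun hh => h1 hh.2.1)]
      simp [h3]
  refine lt_of_le_of_lt (lintegral_mono_ae hb) ?_
  rw [Measure.volume_eq_prod, lintegral_prod_mul
    ((meas_inv.mul_const _).indicator measurableSet_ball).aemeasurable
    (measurable_const.indicator measurableSet_ball).aemeasurable]
  rw [lintegral_indicator measurableSet_ball, lintegral_indicator measurableSet_ball,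
    lintegral_mul_const' _ _ (Cr_lt r).ne, lintegral_one, Measure.restrict_apply_univ]
  exact ENNReal.mul_lt_top (ENNReal.mul_lt_top (inv_int r).lintegral_lt_top (Cr_lt r))
    measure_ball_lt_top

/-- the measure preserving identification -/
theorem mp : MeasurePreserving (fun z : Z => ((z 0, (z 1, z 2)) : ℂ × (ℂ × ℂ))) := by
  have h1 := volume_preserving_piFinSuccAbove (fun _ : Fin 3 => ℂ) 0
  have h2 := volume_preserving_piFinTwo (fun _ : Fin 2 => ℂ)
  have h3 := (MeasurePreserving.id (volume : Measure ℂ)).prod h2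
  exact h3.comp h1

theorem stmtINT5 : G_INT5 := by
  intro κ φ hφ hc
  obtain ⟨M, hM⟩ := hφ.bounded_above_of_compact_support hc
  obtain ⟨r, hr⟩ := hc.isCompact.isBounded.subset_ball (0 : Z)
  have hmeas : Measurable (fun z : Z => φ z / ‖z 0 * z 1 - (κ * z 2) ^ 2‖) := by
    have h : Measurable (fun z : Z => z 0 * z 1 - (κ * z 2) ^ 2) := by fun_prop
    exact hφ.measurable.div h.norm
  refine ⟨hmeas.aestronglyMeasurable, ?_⟩
  have hM0 : 0 ≤ M := (norm_nonneg _).trans (hM 0)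
  have hb : ∀ z : Z, ‖φ z / ‖z 0 * z 1 - (κ * z 2) ^ 2‖‖ₑ ≤
      ENNReal.ofReal M * GG κ r (z 0, (z 1, z 2)) := by
    intro z
    by_cases hz : z ∈ ball (0 : Z) r
    · have hcoord : ∀ i, z i ∈ ball (0 : ℂ) r := by
        intro i
        rw [mem_ball_zero_iff] at hz ⊢
        exact lt_of_le_of_lt (norm_le_pi_norm z i) hz
      rw [GG, indicator_of_mem (mk_mem_prod (hcoord 0) (mk_mem_prod (hcoord 1) (hcoord 2))),
        ← ENNReal.ofReal_mul hM0, ← ofReal_norm, norm_div, norm_norm, div_eq_mul_inv]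
      apply ENNReal.ofReal_le_ofReal
      exact mul_le_mul_of_nonneg_right (hM z) (by positivity)
    · have h0 : φ z = 0 := by
        by_contra hne
        exact hz (hr (subset_tsupport φ hne))
      rw [h0]; simp
  calc ∫⁻ z : Z, ‖φ z / ‖z 0 * z 1 - (κ * z 2) ^ 2‖‖ₑ
      ≤ ∫⁻ z : Z, ENNReal.ofReal M * GG κ r (z 0, (z 1, z 2)) := lintegral_mono hb
    _ = ENNReal.ofReal M * ∫⁻ z : Z, GG κ r (z 0, (z 1, z 2)) :=
        lintegral_const_mul' _ _ ENNReal.ofReal_ne_top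
    _ = ENNReal.ofReal M * ∫⁻ q, GG κ r q := by
        rw [mp.lintegral_comp (meas_GG κ r)]
    _ < ⊤ := ENNReal.mul_lt_top ENNReal.ofReal_lt_top (GG_lt κ r)

end Pool.Agent.Helper6.CF
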